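import Pool.Agent.Y770.EL.Stm

/-!
Project EL (MP_f60174_an): EL-INT, the integral of a partial derivative of a function vanishing on
the boundary.
-/

set_option autoImplicit false

open MeasureTheory Set Filter Topology

namespace Pool.Agent.Y401.EL

open Pool.Agent.Y770.EL

/-- one variable -/
theorem t_INT1 : S_INT1 := by
  intro D hD hb g g' hg hg' h0
  have hgc : Continuous g := continuous_iff_continuousAt.2 fun t => (hg t).continuousAt
  set f : ℝ → ℝ := D.indicator g with hf
  set f' : ℝ → ℝ := D.indicator g' with hf'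
  have hfc : Continuous f := continuous_indicator h0 hgc.continuousOn
  have hfr : ∀ x ∈ frontier D, x ∉ D := fun x hx hxD => by
    rw [hD.frontier_eq] at hx
    exact hx.2 hxD
  set S : Set ℝ := {x | x ∈ frontier D ∧ g' x ≠ 0} with hS
  have hSc : S.Countable := by
    refine (countable_setOfPred_isolated_right_within (s := S)).mono ?_
    intro x hx
    refine ⟨hx, ?_⟩
    have h1 : ∀ᶠ z in 𝓝[≠] x, g z ≠ 0 := (hg x).eventually_ne hx.2
    have h2 : ∀ᶠ z in 𝓝[S ∩ Ioi x] x, g z ≠ 0 :=
      h1.filter_mono (nhdsWithin_mono x fun z hz => ne_of_gt hz.2)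
    have h3 : ∀ᶠ z in 𝓝[S ∩ Ioi x] x, z ∈ S ∩ Ioi x := eventually_mem_nhdsWithin
    rw [← Filter.empty_mem_iff_bot]
    filter_upwards [h2, h3] with z hz1 hz2
    exact hz1 (h0 z hz2.1.1)
  obtain ⟨R, hR⟩ := hb.exists_norm_le
  set L : ℝ := |R| + 1 with hL
  have hL0 : 0 < L := by positivity
  have hDL : ∀ x ∈ D, -L < x ∧ x < L := by
    intro x hx
    have h1 : |x| ≤ R := hR x hx
    have h2 : |x| < L := by
      have := le_abs_self R
      linarith
    exact abs_lt.1 h2
  have hHd : ∀ x ∈ Ioo (-L) L \ S, HasDerivAt f (f' x) x := by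
    intro x hx
    by_cases hxD : x ∈ D
    · have e1 : f' x = g' x := indicator_of_mem hxD _
      rw [e1]
      refine (hg x).congr_of_eventuallyEq ?_
      filter_upwards [hD.mem_nhds hxD] with z hz
      exact indicator_of_mem hz _
    · have e1 : f' x = 0 := indicator_of_notMem hxD _
      rw [e1]
      by_cases hxc : x ∈ closure D
      · have hxf : x ∈ frontier D := by
          rw [hD.frontier_eq]
          exact ⟨hxc, hxD⟩
        have hg0 : g' x = 0 := by
          by_contra hne
          exact hx.2 ⟨hxf, hne⟩
        have h1 := hasDerivAt_iff_isLittleO.1 (hg x)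
        rw [hg0] at h1
        rw [hasDerivAt_iff_isLittleO]
        refine Asymptotics.IsBigO.trans_isLittleO (Asymptotics.isBigO_of_le _ fun z => ?_) h1
        have e2 : f x = 0 := indicator_of_notMem hxD _
        rw [e2, h0 x hxf, smul_zero, sub_zero, sub_zero, sub_zero, sub_zero]
        by_cases hz : z ∈ D
        · have e3 : f z = g z := indicator_of_mem hz _
          rw [e3]
        · have e3 : f z = 0 := indicator_of_notMem hz _
          rw [e3, norm_zero]
          exact norm_nonneg _
      · refine (hasDerivAt_const x (0 : ℝ)).congr_of_eventuallyEq ?_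
        filter_upwards [isClosed_closure.isOpen_compl.mem_nhds hxc] with z hz
        exact indicator_of_notMem (fun hzD => hz (subset_closure hzD)) _
  have hint : IntervalIntegrable f' volume (-L) L := by
    rw [intervalIntegrable_iff_integrableOn_Ioc_of_le (by linarith)]
    exact Integrable.indicator (hg'.integrableOn_Ioc) hD.measurableSet
  have key := integral_eq_of_hasDerivAt_off_countable_of_le f f' (a := -L) (b := L)
    (by linarith) hSc hfc.continuousOn hHd hint
  have e1 : f L = 0 := indicator_of_notMem (fun h => by linarith [(hDL L h).2]) _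
  have e2 : f (-L) = 0 := indicator_of_notMem (fun h => by linarith [(hDL (-L) h).1]) _
  rw [e1, e2, sub_zero, intervalIntegral.integral_of_le (by linarith), hf',
    setIntegral_indicator hD.measurableSet] at key
  have e3 : Ioc (-L) L ∩ D = D := inter_eq_right.2 fun x hx => ⟨(hDL x hx).1, (hDL x hx).2.le⟩
  rwa [e3] at key

/-- several variables -/
theorem t_INT : S_INT := by
  intro n D hD hb G hG h0 i
  obtain ⟨m, rfl⟩ : ∃ m, n = m + 1 := ⟨n - 1, by have := i.pos; omega⟩
  set F : EuclideanSpace ℝ (Fin (m + 1)) → ℝ :=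
    fun x => fderiv ℝ G x (EuclideanSpace.single i 1) with hF
  have hFc : Continuous F := (hG.continuous_fderiv (by norm_num)).clm_apply continuous_const
  have hFi : Integrable (D.indicator F) := by
    rw [integrable_indicator_iff hD.measurableSet]
    exact (hFc.continuousOn.integrableOn_compact hb.isCompact_closure).mono_set subset_closure
  let φ : ℝ × (Fin m → ℝ) ≃ᵐ EuclideanSpace ℝ (Fin (m + 1)) :=
    (MeasurableEquiv.piFinSuccAbove (fun _ => ℝ) i).symm.trans
      (MeasurableEquiv.toLp 2 (Fin (m + 1) → ℝ))
  have hφ : MeasurePreserving φ :=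
    ((volume_preserving_piFinSuccAbove (fun _ => ℝ) i).symm).trans
      (EuclideanSpace.volume_preserving_symm_measurableEquiv_toLp (Fin (m + 1))).symm
  have hφa : ∀ (t : ℝ) (y : Fin m → ℝ),
      φ (t, y) = WithLp.toLp 2 (i.insertNth t y : Fin (m + 1) → ℝ) := fun _ _ => rfl
  rw [← integral_indicator hD.measurableSet, ← hφ.integral_comp']
  have hint : Integrable (fun z => D.indicator F (φ z))
      ((volume : Measure ℝ).prod (volume : Measure (Fin m → ℝ))) :=
    (hφ.integrable_comp_emb φ.measurableEmbedding).2 hFi
  rw [Measure.volume_eq_prod, integral_prod_symm _ hint]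
  have hinner : ∀ y : Fin m → ℝ, ∫ t : ℝ, D.indicator F (φ (t, y)) = 0 := by
    intro y
    have hline : ∀ t : ℝ, φ (t, y) = φ (0, y) + t • EuclideanSpace.single i (1 : ℝ) := by
      intro t
      rw [hφa, hφa]
      ext j
      rcases eq_or_ne j i with rfl | hj
      · simp
      · obtain ⟨k, rfl⟩ := Fin.exists_succAbove_eq hj
        simp
    have hp : ∀ t : ℝ, HasDerivAt (fun t => φ (t, y)) (EuclideanSpace.single i (1 : ℝ)) t := by
      intro t
      have h1 : HasDerivAt (fun t : ℝ => φ (0, y) + t • EuclideanSpace.single i (1 : ℝ))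
          (EuclideanSpace.single i (1 : ℝ)) t := by
        simpa using ((hasDerivAt_id t).smul_const (EuclideanSpace.single i (1 : ℝ))).const_add
          (φ (0, y))
      exact h1.congr_of_eventuallyEq (Filter.Eventually.of_forall hline)
    have hpc : Continuous (fun t => φ (t, y)) :=
      continuous_iff_continuousAt.2 fun t => (hp t).continuousAt
    obtain ⟨R, hR⟩ := hb.exists_norm_le
    have hbd : Bornology.IsBounded ((fun t => φ (t, y)) ⁻¹' D) := by
      refine isBounded_iff_forall_norm_le.2 ⟨R, fun t ht => ?_⟩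
      have h1 : ‖φ (t, y)‖ ≤ R := hR _ ht
      have h2 : ‖(φ (t, y)) i‖ ≤ ‖φ (t, y)‖ := PiLp.norm_apply_le _ i
      have h3 : (φ (t, y)) i = t := by
        rw [hφa]
        simp
      rw [h3] at h2
      exact h2.trans h1
    have h1 := t_INT1 ((fun t => φ (t, y)) ⁻¹' D) (hD.preimage hpc) hbd (fun t => G (φ (t, y)))
      (fun t => F (φ (t, y)))
      (fun t => ((hG.differentiable (by norm_num)) (φ (t, y))).hasFDerivAt.comp_hasDerivAt t (hp t))
      (hFc.comp hpc) (fun t ht => h0 _ (hpc.frontier_preimage_subset D ht))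
    rw [← integral_indicator (hD.preimage hpc).measurableSet] at h1
    exact h1
  simp only [hinner, integral_zero]

end Pool.Agent.Y401.EL

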